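import Pool.Agent.Q285.NG.Main

/-!
# The fluctuations in the Tauberian generalised Nagao conjecture are Brownian

Let `F₀` in `ℤ[t][x]` be monic of degree `2 g + 1` in `x`, let `s j` in `ℤ[t]`, `j < r`, be different polynomials, `r ≤ 2 g - 1`,
and `F₀(t, s j) = (y j) ^ 2` with `y j ≠ 0`. The hyperelliptic fibrations

`Y ^ 2 = F_c(t, x)`, `F_c = F₀ + ∏ j, (x - s j(t)) * (u(t) + v(t) x)`, `u = ∑ c (0, i) t ^ i`, `v = ∑ c (1, i) t ^ i` (`i ≤ D`)

over the `t`-line have the `r` sections `(s j, y j)`. Let `A_p(c)` be the average over the residues `t` modulo `p` of the traces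
`p - #{(x, y) : y ^ 2 = F_c(t, x)}` of the fibres modulo `p`, and let `Σ_T(c)` be the sum of `A_p(c) log p` over the primes `p ≤ T`.
The conjecture predicts `Σ_T(c) / T → - rank`. It is proved that the fluctuations of `Σ_T(c)` around `- r θ(T)`, where `θ` is the
function of Chebyshev, have the exact order `√(T log T)` and are Brownian: if the coefficients `c` are taken at random from a
box with sides larger than every fixed power of `X`, then the process `τ ↦ (Σ_{τ X}(c) + r θ(τ X)) / √(X log X)` on `(0, 1]`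
converges to the Brownian motion.

Proof. Modulo an odd prime `p` the four values at four points `t` of the pair `(u, v)` are independent if `D ≥ 3`, and for fixed
`t` the values of `F_c(t, x)` at two points `x` outside of the base locus are independent. Hence the mean of `A_p(c)` is `- r` up to
`O(1 / p)`, its variance is `1` up to `O(1 / p)`, and its fourth moment is bounded, while its values are only bounded by `p`. The
characteristic function of the sums is compared with that of independent variables by a truncation of the local functions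
(condition of Lindeberg), a Taylor polynomial and the chinese remainder theorem. The variances `log p ^ 2 / (X log X)` are summed
with the prime number theorem.
-/

set_option autoImplicit false

namespace Pool.Agent.Results.MP_1a0ddd_nt.NagaoBrownian

open Finset Polynomial
open scoped NNReal
open Q285NG

/-- The sum of `A_p log p` over the primes `p ≤ T`, where `A_p` is the average of the traces of the fibres modulo `p`. -/
noncomputable def nagaoSum (F : ℤ[X][X]) (T : ℝ) : ℝ := ∑ p ∈ (Icc 1 ⌊T⌋₊).filter Nat.Prime, avTr p F * Real.log p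

/-- The fluctuation: the difference of the sum of `A_p log p` over the primes `p ≤ T` and of its expected value `- r θ(T)`, divided
by `√(X log X)`. -/
noncomputable def fluctuation (r : ℕ) (F : ℤ[X][X]) (X : ℕ) (T : ℝ) : ℝ :=
  (nagaoSum F T + r * Chebyshev.theta T) / Real.sqrt (X * Real.log X)

/-- The box of the integer vectors `c` with `N i ≤ c i < N i + L i`. -/
noncomputable def box {κ : Type} [Fintype κ] [DecidableEq κ] (N : κ → ℤ) (L : κ → ℕ) : Finset (κ → ℤ) :=
  Fintype.piFinset fun i => Ico (N i) (N i + L i)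

/-- The proportion of the elements of the box with the property `P`. -/
noncomputable def proportion {κ : Type} [Fintype κ] [DecidableEq κ] (N : κ → ℤ) (L : κ → ℕ) (P : (κ → ℤ) → Prop) : ℝ :=
  by classical exact (((box N L).filter P).card : ℝ) / ∏ i, (L i : ℝ)

/-- The probability that the real Brownian motion `B` satisfies `B_τ ≤ x τ` for all `τ` in `I`. -/
noncomputable def brownian (I : Finset ℝ≥0) (x : I → ℝ) : ℝ := (ProbabilityTheory.BrownianReal.projectiveFamily I (Set.Iic x)).toReal

lemma fluct_eq {D r : ℕ} (F₀ : ℤ[X][X]) (s : Fin r → ℤ[X]) (c : Fin 2 × Fin (D + 1) → ℤ) (X : ℕ) (τ : ℝ) (hτ : τ ≤ 1) :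
    ∑ p ∈ Q282.BP.PP ⌊τ * X⌋₊, lm X p * HP F₀ s p (fun i => (c i : ZMod p)) = fluctuation r (fam F₀ s c) X (τ * X) := by
  unfold fluctuation nagaoSum
  rw [Chebyshev.theta_eq_theta_coe_floor, theta_PP, mul_sum, ← sum_add_distrib, sum_div]
  refine sum_congr rfl fun p hp => ?_
  have h1 : p ≤ X := by
    refine (mem_Icc.1 (mem_filter.1 hp).1).2.trans (Nat.floor_le_of_le ?_)
    have : (0 : ℝ) ≤ X := Nat.cast_nonneg X
    nlinarith
  rw [HP_fam]
  unfold lm
  rw [if_pos h1]
  ring

theorem result {g D r : ℕ} (hD : 3 ≤ D) (hr : r + 1 ≤ 2 * g) (F₀ : ℤ[X][X]) (hF₀ : F₀.Monic) (hdeg : F₀.natDegree = 2 * g + 1)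
    (s y : Fin r → ℤ[X]) (hs : Function.Injective s) (hy : ∀ j, y j ≠ 0) (hsy : ∀ j, F₀.eval (s j) = y j ^ 2) :
    -- the members of the family
    (∀ c : Fin 2 × Fin (D + 1) → ℤ, (fam F₀ s c).Monic ∧ (fam F₀ s c).natDegree = 2 * g + 1 ∧
      ∀ j, (fam F₀ s c).eval (s j) = y j ^ 2) ∧
    -- the limit law
    ∀ (I : Finset ℝ≥0) (_ : ∀ τ ∈ I, 0 < τ ∧ τ ≤ 1) (x : I → ℝ) (ε : ℝ) (_ : 0 < ε),
      ∃ X₁ : ℕ, ∀ X : ℕ, X₁ ≤ X → ∀ (N : Fin 2 × Fin (D + 1) → ℤ) (L : Fin 2 × Fin (D + 1) → ℕ), (∀ i, (X : ℝ) ^ X₁ ≤ L i) →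
        |proportion N L (fun c => ∀ τ : I, fluctuation r (fam F₀ s c) X (((τ : ℝ≥0) : ℝ) * X) ≤ x τ) - brownian I x| ≤ ε := by
  classical
  refine ⟨fun c => ?_, ?_⟩
  · have hW : (∏ j, (X - C (s j)) : ℤ[X][X]).natDegree = r := by
      rw [natDegree_prod_of_monic _ _ fun j _ => monic_X_sub_C (s j)]
      simp
    have hlin : (C (pol fun i => c (0, i)) + C (pol fun i => c (1, i)) * X : ℤ[X][X]).natDegree ≤ 1 := by
      rw [add_comm]
      exact natDegree_linear_le
    have hdeg2 : ((∏ j, (X - C (s j))) * (C (pol fun i => c (0, i)) + C (pol fun i => c (1, i)) * X) : ℤ[X][X]).natDegree < F₀.natDegree := by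
      refine lt_of_le_of_lt natDegree_mul_le ?_
      rw [hW, hdeg]
      omega
    have hdeg3 : ((∏ j, (X - C (s j))) * (C (pol fun i => c (0, i)) + C (pol fun i => c (1, i)) * X) : ℤ[X][X]).degree < F₀.degree := by
      exact degree_lt_degree hdeg2
    refine ⟨hF₀.add_of_left hdeg3, ?_, fun j => ?_⟩
    · unfold fam
      rw [natDegree_add_eq_left_of_natDegree_lt hdeg2, hdeg]
    · unfold fam
      rw [eval_add, hsy j, eval_mul, eval_prod, prod_eq_zero (mem_univ j) (by rw [eval_sub, eval_X, eval_C, sub_self]), zero_mul, add_zero]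
  · intro I hI x ε hε
    obtain ⟨X₁, h⟩ := nagaoB hD hs hy hsy I hI x ε hε
    refine ⟨X₁, fun X hX N L hL => ?_⟩
    have h1 := h X hX N L hL
    have h2 : ∀ c : Fin 2 × Fin (D + 1) → ℤ, (∀ τ : I, ∑ p ∈ Q282.BP.PP ⌊((τ : ℝ≥0) : ℝ) * X⌋₊, lm X p * HP F₀ s p (fun i => (c i : ZMod p)) ≤ x τ) ↔
        ∀ τ : I, fluctuation r (fam F₀ s c) X (((τ : ℝ≥0) : ℝ) * X) ≤ x τ := fun c =>
      forall_congr' fun τ => by rw [fluct_eq F₀ s c X _ (by exact_mod_cast (hI τ τ.2).2)]
    simp only [h2] at h1
    unfold proportion box brownian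
    unfold Q282.GK.kbox Q282.CL.W at h1
    convert h1

end Pool.Agent.Results.MP_1a0ddd_nt.NagaoBrownian
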