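import Pool.Agent.Q5.WS.Ta

/-!
# The Tauberian generalized Nagao conjecture: wide families of number fields decide

`𝒳 → 𝒴` is a fibration over a number field `K`, given over an open part of the base by equations, as in
`Pool.Agent.W353.FB.Defs`; `B` is the abelian variety of the question, and `V` is the space
`(P_X(K̄(𝒴)) / τ B(K̄)) ⊗ ℚ` with the action of the absolute Galois group of `K` (the theorem holds for every finite
dimensional representation `V`); the rank of `P_X(F(𝒴)) / τ B(F)` is the dimension of the space of the invariants
of the absolute Galois group of `F`.  `Nagao` over `F`: `-T⁻¹ ∑_{q_v ≤ T} 𝔄*_v log q_v` tends to this rank.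
-/

set_option autoImplicit false

namespace Pool.Agent.Results.MP_1a0ddd_nt.WideFamiliesOfFields

open Pool.Agent.Q5.WS.Ta

/-- (1) Let `𝓕` be a wide family of finite extensions of `K`.  If the assertion holds for all `F` in `𝓕`, it holds for
`K`.  (2) The intersection of two wide families is wide, and the extensions of degree divisible by `M` form a wide
family.  (3) Let `M > 0`.  If the assertion holds for all finite extensions `F/K` with `M ∣ [F:K]`, it holds for all
finite extensions of `K`.
(4) Let `p` be a prime, `k` a number and `T` an infinite set of primes.  If the assertion holds for all `F/K` of degree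
divisible by `p^k` generated by finitely many `p`-th roots of positive integers all of whose prime factors belong to
`T`, it holds for `K`. -/
theorem result : WideLaw ∧ WideExamples ∧ DegreeLaw ∧ TestLaw :=
  ⟨wide, wideEx, degree, test⟩

end Pool.Agent.Results.MP_1a0ddd_nt.WideFamiliesOfFields
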